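import Mathlib

set_option autoImplicit false

/-!
# Free actions with infinitely many orbits

Any two free actions of a group with infinitely many orbits on countable sets are isomorphic. So
free actions extend to overgroups.
-/

namespace Pool.Agent.H346.FA

variable {K L X X' : Type} [Group K] [Group L]

/-- a free action with infinitely many orbits -/
def Good (ρ : K →* Equiv.Perm X) : Prop :=
  (∀ k x, ρ k x = x → k = 1) ∧ ∃ s : ℕ → X, ∀ i j k, ρ k (s i) = s j → i = j

lemma Good.injective {ρ : K →* Equiv.Perm X} (h : Good ρ) : Function.Injective ρ := by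
  rw [injective_iff_map_eq_one]
  intro k hk
  obtain ⟨h1, s, -⟩ := h
  exact h1 k (s 0) (by rw [hk]; rfl)

lemma Good.comp {ρ : L →* Equiv.Perm X} (h : Good ρ) (g : K →* L) (hg : Function.Injective g) :
    Good (ρ.comp g) := by
  obtain ⟨h1, s, h2⟩ := h
  refine ⟨fun k x hk => ?_, s, fun i j k hk => h2 i j (g k) hk⟩
  have := h1 (g k) x hk
  rw [← map_one g] at this
  exact hg this

lemma Good.transport {ρ : K →* Equiv.Perm X} (h : Good ρ) (e : X ≃ X') :
    Good ((e.permCongrHom : Equiv.Perm X ≃* Equiv.Perm X').toMonoidHom.comp ρ) := by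
  obtain ⟨h1, s, h2⟩ := h
  refine ⟨fun k x hk => ?_, fun i => e (s i), fun i j k hk => ?_⟩
  · apply h1 k (e.symm x)
    have : e (ρ k (e.symm x)) = x := hk
    exact e.injective (by rw [this, e.apply_symm_apply])
  · apply h2 i j k
    have : e (ρ k (e.symm (e (s i)))) = e (s j) := hk
    rw [e.symm_apply_apply] at this
    exact e.injective this

lemma std {ρ : K →* Equiv.Perm X} [Countable X] (h : Good ρ) :
    ∃ (Q : Type) (_ : Countable Q) (_ : Infinite Q) (e : K × Q ≃ X),
      ∀ k k' q, e (k * k', q) = ρ k (e (k', q)) := by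
  obtain ⟨h1, s, h2⟩ := h
  let r : Setoid X :=
    { r := fun x y => ∃ k, ρ k x = y
      iseqv := by
        refine ⟨fun x => ⟨1, by simp⟩, ?_, ?_⟩
        · rintro x y ⟨k, rfl⟩
          exact ⟨k⁻¹, by simp⟩
        · rintro x y z ⟨k, rfl⟩ ⟨k', rfl⟩
          exact ⟨k' * k, by simp⟩ }
  have hinf : Infinite (Quotient r) := by
    apply Infinite.of_injective (fun i : ℕ => (⟦s i⟧ : Quotient r))
    intro i j hij
    obtain ⟨k, hk⟩ := Quotient.exact hij
    exact h2 i j k hk
  refine ⟨Quotient r, inferInstance, hinf,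
    Equiv.ofBijective (fun p : K × Quotient r => ρ p.1 p.2.out) ⟨?_, ?_⟩, ?_⟩
  · rintro ⟨k, q⟩ ⟨k', q'⟩ hkk
    simp only at hkk
    have hq : q = q' := by
      rw [← Quotient.out_eq q, ← Quotient.out_eq q']
      apply Quotient.sound
      refine ⟨k'⁻¹ * k, ?_⟩
      rw [map_mul, Equiv.Perm.mul_apply, hkk, ← Equiv.Perm.mul_apply, ← map_mul]
      simp
    subst hq
    have : ρ (k'⁻¹ * k) q.out = q.out := by
      rw [map_mul, Equiv.Perm.mul_apply, hkk, ← Equiv.Perm.mul_apply, ← map_mul]
      simp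
    have := h1 _ _ this
    rw [inv_mul_eq_one.1 this]
  · intro x
    obtain ⟨k, hk⟩ : ∃ k, ρ k (⟦x⟧ : Quotient r).out = x := by
      have : (⟦(⟦x⟧ : Quotient r).out⟧ : Quotient r) = ⟦x⟧ := Quotient.out_eq _
      exact Quotient.exact this
    exact ⟨(k, ⟦x⟧), hk⟩
  · intro k k' q
    simp [Equiv.ofBijective]

lemma iso {ρ : K →* Equiv.Perm X} {ρ' : K →* Equiv.Perm X'} [Countable X] [Countable X']
    (h : Good ρ) (h' : Good ρ') : ∃ e : X ≃ X', ∀ k x, e (ρ k x) = ρ' k (e x) := by
  obtain ⟨Q, _, _, e, he⟩ := std h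
  obtain ⟨Q', _, _, e', he'⟩ := std h'
  obtain ⟨f⟩ := nonempty_equiv_of_countable (α := Q) (β := Q')
  refine ⟨e.symm.trans (((Equiv.refl K).prodCongr f).trans e'), fun k x => ?_⟩
  obtain ⟨⟨k', q⟩, rfl⟩ := e.surjective x
  rw [← he]
  simp only [Equiv.trans_apply, Equiv.symm_apply_apply, Equiv.prodCongr_apply, Prod.map_apply,
    Equiv.refl_apply]
  exact he' k k' (f q)

/-- left multiplication on `K × ℕ` -/
def lm (K : Type) [Group K] : K →* Equiv.Perm (K × ℕ) where
  toFun k := (Equiv.mulLeft k).prodCongr (Equiv.refl ℕ)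
  map_one' := by ext x <;> simp
  map_mul' a b := by ext x <;> simp [mul_assoc]

lemma lm_apply (k : K) (x : K × ℕ) : lm K k x = (k * x.1, x.2) := rfl

lemma good_lm : Good (lm K) := by
  refine ⟨fun k x h => ?_, fun i => (1, i), fun i j k h => ?_⟩
  · rw [lm_apply] at h
    have := (Prod.ext_iff.1 h).1
    simpa using this
  · rw [lm_apply] at h
    exact (Prod.ext_iff.1 h).2

/-- a free action extends to an overgroup -/
lemma extend [Countable X] [Countable L] {ρ : K →* Equiv.Perm X} (h : Good ρ) (g : K →* L)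
    (hg : Function.Injective g) : ∃ σ : L →* Equiv.Perm X, Good σ ∧ ∀ k, σ (g k) = ρ k := by
  obtain ⟨e, he⟩ := iso (good_lm.comp g hg) h
  refine ⟨_, good_lm.transport e, fun k => ?_⟩
  ext x
  show e (lm L (g k) (e.symm x)) = ρ k x
  have := he k (e.symm x)
  rw [e.apply_symm_apply] at this
  exact this

/-- the pull back of a free action by an injective endomorphism is conjugate to it -/
lemma conj [Countable X] {ρ : K →* Equiv.Perm X} (h : Good ρ) (f : K →* K)
    (hf : Function.Injective f) : ∃ t : Equiv.Perm X, ∀ k, t * ρ k * t⁻¹ = ρ (f k) := by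
  obtain ⟨e, he⟩ := iso h (h.comp f hf)
  refine ⟨e, fun k => ?_⟩
  rw [mul_inv_eq_iff_eq_mul]
  ext x
  exact he k x

end Pool.Agent.H346.FA
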