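import Pool.Agent.H346.FA.Free

set_option autoImplicit false

/-!
# Ascending HNN extensions and amalgams which contain free groups
-/

namespace Pool.Agent.H346.FA

open FreeGroup

section ez

variable {A Z : Type} (α : A ⊕ Z → FreeGroup Z)

/-- the endomorphism of `F(A ⊕ Z)` -/
def al : FreeGroup (A ⊕ Z) →* FreeGroup (A ⊕ Z) := (FreeGroup.map Sum.inr).comp (lift α)

/-- splitting off the first index -/
def spl (A : Type) (m : ℕ) : A × Fin (m + 1) ≃ A ⊕ (A × Fin m) where
  toFun p := Fin.cases (motive := fun _ => A ⊕ (A × Fin m)) (Sum.inl p.1)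
    (fun j => Sum.inr (p.1, j)) p.2
  invFun := Sum.elim (fun a => (a, 0)) (fun q => (q.1, q.2.succ))
  left_inv := by
    rintro ⟨a, j⟩
    induction j using Fin.cases with
    | zero => rfl
    | succ j => rfl
  right_inv := by
    rintro (a | ⟨a, j⟩) <;> rfl

/-- the elements `α ^ j (a)` -/
def phi (m : ℕ) : FreeGroup (A × Fin m) →* FreeGroup (A ⊕ Z) :=
  lift (fun p => (al α)^[p.2.val] (of (Sum.inl p.1)))

variable {α}

lemma phi_injective [Countable A] [Countable Z] (hα : Function.Injective (lift α)) (m : ℕ) :
    Function.Injective (phi (α := α) m) := by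
  induction m with
  | zero => exact Function.injective_of_subsingleton _
  | succ m ih =>
    have h1 : phi (α := α) (m + 1) = (sumMap A ((lift α).comp (phi (α := α) m))).comp
        (FreeGroup.freeGroupCongr (spl A m)).toMonoidHom := by
      ext1 ⟨a, j⟩
      induction j using Fin.cases with
      | zero =>
        have e : (FreeGroup.freeGroupCongr (spl A m)).toMonoidHom (of (a, (0 : Fin (m + 1)))) =
            of (Sum.inl a) := by
          show FreeGroup.map _ (of _) = _
          rw [FreeGroup.map.of]; rfl
        rw [MonoidHom.comp_apply, e]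
        simp [phi, sumMap]
      | succ j =>
        have e : (FreeGroup.freeGroupCongr (spl A m)).toMonoidHom (of (a, j.succ)) =
            of (Sum.inr (a, j)) := by
          show FreeGroup.map _ (of _) = _
          rw [FreeGroup.map.of]; rfl
        rw [MonoidHom.comp_apply, e]
        simp only [phi, sumMap, lift_apply_of, Sum.elim_inr, MonoidHom.comp_apply, Fin.val_succ]
        rw [Function.iterate_succ_apply']
        rfl
    rw [h1]
    have h2 : Function.Injective ((lift α).comp (phi (α := α) m)) := fun a b hab => ih (hα hab)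
    exact (sumMap_injective _ h2).comp (MulEquiv.injective _)

theorem ez [Countable A] [Countable Z] (hα : Function.Injective (lift α)) :
    ∃ (E : Type) (_ : Group E) (_ : Countable E) (x : A ⊕ Z → E) (τ : E),
      (∀ y, τ⁻¹ * x y * τ = lift (fun z => x (Sum.inr z)) (α y)) ∧
      Function.Injective (lift x) ∧
      Function.Injective (lift (Sum.elim (fun a => x (Sum.inl a)) (fun _ : Unit => τ))) := by
  have : Countable (FreeGroup (A ⊕ Z)) := Quotient.countable
  have hal : Function.Injective (al α) :=
    (FreeGroup.map_injective Sum.inr_injective).comp hα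
  obtain ⟨t, ht⟩ := conj (good_lm (K := FreeGroup (A ⊕ Z))) (al α) hal
  -- the ambient group
  let E := Equiv.Perm (FreeGroup (A ⊕ Z) × ℕ) × Multiplicative ℤ
  let em : FreeGroup (A ⊕ Z) →* E := (lm (FreeGroup (A ⊕ Z))).prod 1
  have hem : Function.Injective em := by
    intro a b hab
    exact good_lm.injective (Prod.ext_iff.1 hab).1
  let τ : E := (t⁻¹, Multiplicative.ofAdd 1)
  have hτ : ∀ k, τ⁻¹ * em k * τ = em (al α k) := by
    intro k
    apply Prod.ext
    · show (t⁻¹)⁻¹ * lm _ k * t⁻¹ = lm _ (al α k)
      rw [inv_inv, ht]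
    · show (Multiplicative.ofAdd (1 : ℤ))⁻¹ * 1 * Multiplicative.ofAdd 1 = 1
      group
  have hτj : ∀ (j : ℕ) k, (τ ^ j)⁻¹ * em k * τ ^ j = em ((al α)^[j] k) := by
    intro j
    induction j with
    | zero => intro k; simp
    | succ j ih =>
      intro k
      rw [Function.iterate_succ_apply', ← hτ, ← ih, pow_succ]
      group
  let x : A ⊕ Z → E := fun y => em (of y)
  have hx : lift x = em := by
    ext1 y; simp [x]
  have hxinj : Function.Injective (lift x) := by rw [hx]; exact hem
  have hrel : ∀ y, τ⁻¹ * x y * τ = lift (fun z => x (Sum.inr z)) (α y) := by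
    intro y
    rw [hτ]
    have h1 : lift (fun z => x (Sum.inr z)) = em.comp (FreeGroup.map Sum.inr) := by
      ext1 z; simp [x]
    rw [h1]
    show em (FreeGroup.map Sum.inr (lift α (of y))) = _
    rw [lift_apply_of]; rfl
  have hfree : Function.Injective (lift (Sum.elim (fun a => x (Sum.inl a)) (fun _ : Unit => τ))) := by
    apply free_crit (fun a => x (Sum.inl a)) τ (MonoidHom.snd _ _)
    · intro a; rfl
    · rfl
    · intro m
      have h1 : lift (fun p : A × Fin m => (τ ^ p.2.val)⁻¹ * x (Sum.inl p.1) * τ ^ p.2.val) =
          em.comp (phi (α := α) m) := by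
        ext1 p
        simp only [lift_apply_of, MonoidHom.comp_apply, phi]
        exact hτj _ _
      rw [h1]
      exact hem.comp (phi_injective hα m)
  -- restrict to a countable subgroup
  let R := (lift (Sum.elim x (fun _ : Unit => τ))).range
  have hc : Countable R := by
    have : Countable (FreeGroup ((A ⊕ Z) ⊕ Unit)) := Quotient.countable
    exact (Set.countable_range _).to_subtype
  let x' : A ⊕ Z → R := fun y => ⟨x y, of (Sum.inl y), by simp⟩
  let τ' : R := ⟨τ, of (Sum.inr ()), by simp⟩
  have e1 : (R.subtype).comp (lift x') = lift x := by ext1 y; simp [x']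
  have e2 : (R.subtype).comp (lift (fun z => x' (Sum.inr z))) = lift (fun z => x (Sum.inr z)) := by
    ext1 y; simp [x']
  have e3 : (R.subtype).comp (lift (Sum.elim (fun a => x' (Sum.inl a)) (fun _ : Unit => τ'))) =
      lift (Sum.elim (fun a => x (Sum.inl a)) (fun _ : Unit => τ)) := by
    ext1 y
    cases y <;> simp [x', τ']
  refine ⟨R, inferInstance, hc, x', τ', ?_, ?_, ?_⟩
  · intro y
    apply Subtype.ext
    have := hrel y
    rw [← e2] at this
    exact this
  · rw [← e1] at hxinj
    intro a b hab
    apply hxinj
    rw [MonoidHom.comp_apply, MonoidHom.comp_apply, hab]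
  · rw [← e3] at hfree
    intro a b hab
    apply hfree
    rw [MonoidHom.comp_apply, MonoidHom.comp_apply, hab]

end ez

section gam

variable {T : Type}

/-- the free group on two copies as a free product -/
def kap (T : Type) : FreeGroup (T ⊕ T) →* Monoid.CoprodI (fun _ : Bool => FreeGroup T) :=
  lift (Sum.elim (fun i => Monoid.CoprodI.of (i := false) (of i))
    (fun i => Monoid.CoprodI.of (i := true) (of i)))

lemma kap_injective : Function.Injective (kap T) := by
  let g : Monoid.CoprodI (fun _ : Bool => FreeGroup T) →* FreeGroup (T ⊕ T) :=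
    Monoid.CoprodI.lift (fun b => match b with
      | false => FreeGroup.map Sum.inl
      | true => FreeGroup.map Sum.inr)
  have h : g.comp (kap T) = MonoidHom.id _ := by
    ext1 x
    cases x with
    | inl x => simp [g, kap]
    | inr x => simp [g, kap]
  intro a b hab
  have h1 := DFunLike.congr_fun h a
  have h2 := DFunLike.congr_fun h b
  rw [MonoidHom.comp_apply] at h1 h2
  rw [hab] at h1
  exact h1.symm.trans h2

variable {M F : Type} [Group M] [Group F]

/-- The free product of the groups `ψ false (F)`, `ψ true (F)` embeds in the amalgam if both meet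
the amalgamated subgroup trivially. -/
lemma amalgam (φ ψ : Bool → (F →* M)) (hφ : ∀ b, Function.Injective (φ b))
    (hψ : ∀ b g, ψ b g ∈ (φ b).range → g = 1) :
    Function.Injective (Monoid.CoprodI.lift (fun b : Bool =>
      (Monoid.PushoutI.of (φ := fun b : Bool => φ b) b).comp (ψ b))) := by
  classical
  rw [injective_iff_map_eq_one]
  intro c hc
  obtain ⟨w, rfl⟩ := Monoid.CoprodI.Word.equiv.symm.surjective c
  change Monoid.CoprodI.lift _ w.prod = 1 at hc
  show w.prod = 1
  let f : (Σ _ : Bool, F) → (Σ _ : Bool, M) := fun l => ⟨l.1, ψ l.1 l.2⟩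
  let w' : Monoid.CoprodI.Word (fun _ : Bool => M) :=
    { toList := w.toList.map f
      ne_one := by
        intro l hl
        rw [List.mem_map] at hl
        obtain ⟨l', hl', rfl⟩ := hl
        intro h1
        apply w.ne_one l' hl'
        apply hψ l'.1
        change ψ l'.1 l'.2 = 1 at h1
        rw [h1]
        exact one_mem _
      chain_ne := by
        rw [List.isChain_map]
        exact w.chain_ne }
  have hred : Monoid.PushoutI.Reduced (fun b : Bool => φ b) w' := by
    intro l hl hmem
    change l ∈ w.toList.map f at hl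
    rw [List.mem_map] at hl
    obtain ⟨l', hl', rfl⟩ := hl
    exact w.ne_one l' hl' (hψ l'.1 l'.2 hmem)
  have hprod : Monoid.PushoutI.ofCoprodI (φ := fun b : Bool => φ b) w'.prod =
      Monoid.CoprodI.lift (fun b : Bool =>
        (Monoid.PushoutI.of (φ := fun b : Bool => φ b) b).comp (ψ b)) w.prod := by
    unfold Monoid.CoprodI.Word.prod
    rw [map_list_prod, map_list_prod]
    simp only [w', List.map_map]
    congr 1
  have hempty := hred.eq_empty_of_mem_range hφ (by
    rw [hprod, hc]; exact one_mem _)
  have h1 : w.toList.map f = [] := congrArg Monoid.CoprodI.Word.toList hempty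
  have h2 : w.toList = [] := List.map_eq_nil_iff.1 h1
  unfold Monoid.CoprodI.Word.prod
  rw [h2]; simp

theorem gam [Countable T] (θ β : T → T → FreeGroup T)
    (hθ : ∀ i, Function.Injective (lift (θ i))) (hβ : ∀ i, Function.Injective (lift (β i))) :
    ∃ (E : Type) (_ : Group E) (_ : Countable E) (a z d : T → E),
      (∀ i j, z i * d j * (z i)⁻¹ = lift d (θ i j)) ∧
      (∀ i j, d i * a j * (d i)⁻¹ = lift a (β i j)) ∧
      Function.Injective (lift (Sum.elim a z)) := by
  have : Countable (FreeGroup T) := Quotient.countable
  choose t ht using fun i => conj (good_lm (K := FreeGroup T)) (lift (θ i)) (hθ i)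
  choose s hs using fun i => conj (good_lm (K := FreeGroup T)) (lift (β i)) (hβ i)
  let M := Equiv.Perm (FreeGroup T × ℕ) × FreeGroup T
  let iD : FreeGroup T →* M := (lm (FreeGroup T)).prod 1
  let iZ : FreeGroup T →* M := lift (fun i => ((t i, of i) : M))
  let jD : FreeGroup T →* M := lift (fun i => ((s i, of i) : M))
  have hiD : Function.Injective iD := fun a b hab => good_lm.injective (Prod.ext_iff.1 hab).1
  have hsndZ : ∀ g, (iZ g).2 = g := by
    have : (MonoidHom.snd _ _).comp iZ = MonoidHom.id _ := by
      ext1 i; simp [iZ]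
    exact fun g => DFunLike.congr_fun this g
  have hsndD : ∀ g, (jD g).2 = g := by
    have : (MonoidHom.snd _ _).comp jD = MonoidHom.id _ := by
      ext1 i; simp [jD]
    exact fun g => DFunLike.congr_fun this g
  have hjD : Function.Injective jD := fun a b hab => by
    rw [← hsndD a, ← hsndD b, hab]
  let φ : Bool → (FreeGroup T →* M) := fun b => cond b iD jD
  let ψ : Bool → (FreeGroup T →* M) := fun b => cond b iZ iD
  have hφ : ∀ b, Function.Injective (φ b) := by
    intro b; cases b
    · exact hjD
    · exact hiD
  have hψ : ∀ b g, ψ b g ∈ (φ b).range → g = 1 := by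
    intro b g hg
    cases b
    · obtain ⟨v, hv⟩ := hg
      change jD v = iD g at hv
      have h1 : v = 1 := by
        rw [← hsndD v, hv]; rfl
      rw [h1, _root_.map_one] at hv
      apply hiD
      rw [← hv, _root_.map_one]
    · obtain ⟨v, hv⟩ := hg
      change iD v = iZ g at hv
      rw [← hsndZ g, ← hv]; rfl
  let Q := Monoid.PushoutI (fun b : Bool => φ b)
  let ofB : (b : Bool) → M →* Q := fun b => Monoid.PushoutI.of (φ := fun b : Bool => φ b) b
  have hbase : ∀ g, ofB true (iD g) = ofB false (jD g) := by
    intro g
    have h1 := Monoid.PushoutI.of_apply_eq_base (fun b : Bool => φ b) true g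
    have h2 := Monoid.PushoutI.of_apply_eq_base (fun b : Bool => φ b) false g
    exact h1.trans h2.symm
  let a : T → Q := fun i => ofB false (iD (of i))
  let z : T → Q := fun i => ofB true (iZ (of i))
  let d : T → Q := fun i => ofB true (iD (of i))
  have hr1 : ∀ i j, z i * d j * (z i)⁻¹ = lift d (θ i j) := by
    intro i j
    have h1 : lift d = (ofB true).comp iD := by ext1 k; simp [d]
    rw [h1, MonoidHom.comp_apply]
    simp only [z, d]
    rw [← _root_.map_mul, ← _root_.map_inv, ← _root_.map_mul]
    congr 1
    have h2 : iZ (of i) = (t i, of i) := by simp [iZ]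
    rw [h2]
    apply Prod.ext
    · show t i * lm _ (of j) * (t i)⁻¹ = lm _ (θ i j)
      rw [ht, lift_apply_of]
    · show of i * 1 * (of i)⁻¹ = 1
      group
  have hr2 : ∀ i j, d i * a j * (d i)⁻¹ = lift a (β i j) := by
    intro i j
    have h1 : lift a = (ofB false).comp iD := by ext1 k; simp [a]
    rw [h1, MonoidHom.comp_apply]
    simp only [a, d]
    rw [hbase, ← _root_.map_mul, ← _root_.map_inv, ← _root_.map_mul]
    congr 1
    have h2 : jD (of i) = (s i, of i) := by simp [jD]
    rw [h2]
    apply Prod.ext
    · show s i * lm _ (of j) * (s i)⁻¹ = lm _ (β i j)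
      rw [hs, lift_apply_of]
    · show of i * 1 * (of i)⁻¹ = 1
      group
  have hfree : Function.Injective (lift (Sum.elim a z)) := by
    have h1 := (amalgam φ ψ hφ hψ).comp kap_injective
    have h2 : lift (Sum.elim a z) = (Monoid.CoprodI.lift (fun b : Bool =>
      (Monoid.PushoutI.of (φ := fun b : Bool => φ b) b).comp (ψ b))).comp (kap T) := by
      ext1 x
      cases x with
      | inl x => simp [kap, a, ofB, ψ]
      | inr x => simp [kap, z, ofB, ψ]
    rw [h2]
    exact h1
  -- restrict to a countable subgroup
  let R := (lift (Sum.elim (Sum.elim a z) d)).range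
  have hc : Countable R := by
    have : Countable (FreeGroup ((T ⊕ T) ⊕ T)) := Quotient.countable
    exact (Set.countable_range _).to_subtype
  let a' : T → R := fun y => ⟨a y, of (Sum.inl (Sum.inl y)), by simp⟩
  let z' : T → R := fun y => ⟨z y, of (Sum.inl (Sum.inr y)), by simp⟩
  let d' : T → R := fun y => ⟨d y, of (Sum.inr y), by simp⟩
  have e1 : (R.subtype).comp (lift (Sum.elim a' z')) = lift (Sum.elim a z) := by
    ext1 y; cases y <;> simp [a', z']
  have e2 : (R.subtype).comp (lift d') = lift d := by
    ext1 y; simp [d']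
  have e3 : (R.subtype).comp (lift a') = lift a := by
    ext1 y; simp [a']
  refine ⟨R, inferInstance, hc, a', z', d', ?_, ?_, ?_⟩
  · intro i j
    apply Subtype.ext
    have := hr1 i j
    rw [← e2] at this
    exact this
  · intro i j
    apply Subtype.ext
    have := hr2 i j
    rw [← e3] at this
    exact this
  · rw [← e1] at hfree
    intro a b hab
    apply hfree
    rw [MonoidHom.comp_apply, MonoidHom.comp_apply, hab]

end gam

end Pool.Agent.H346.FA
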