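import Pool.Agent.H346.FA.Act

set_option autoImplicit false

/-!
# Freeness criteria
-/

namespace Pool.Agent.H346.FA

open FreeGroup

variable {A S Z : Type}

/-- the map `F(A ⊕ S) → F(A ⊕ Z)` induced by `g : F(S) → F(Z)` -/
def sumMap (A : Type) {S Z : Type} (g : FreeGroup S →* FreeGroup Z) :
    FreeGroup (A ⊕ S) →* FreeGroup (A ⊕ Z) :=
  lift (Sum.elim (fun a => of (Sum.inl a)) (fun s => FreeGroup.map Sum.inr (g (of s))))

lemma sumMap_injective [Countable A] [Countable S] [Countable Z] (g : FreeGroup S →* FreeGroup Z)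
    (hg : Function.Injective g) : Function.Injective (sumMap A g) := by
  have hinr : Function.Injective (FreeGroup.map (Sum.inr : S → A ⊕ S)) :=
    FreeGroup.map_injective Sum.inr_injective
  have : Countable (FreeGroup (A ⊕ S)) := Quotient.countable
  have : Countable (FreeGroup Z) := Quotient.countable
  obtain ⟨σ, -, hσ⟩ := extend ((good_lm (K := FreeGroup (A ⊕ S))).comp
    (FreeGroup.map (Sum.inr : S → A ⊕ S)) hinr) g hg
  let h : FreeGroup (A ⊕ Z) →* Equiv.Perm (FreeGroup (A ⊕ S) × ℕ) :=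
    lift (Sum.elim (fun a => lm _ (of (Sum.inl a))) (fun z => σ (of z)))
  have hinrZ : h.comp (FreeGroup.map (Sum.inr : Z → A ⊕ Z)) = σ := by
    ext1 z
    simp [h]
  have key : h.comp (sumMap A g) = lm _ := by
    ext1 x
    cases x with
    | inl a => simp [h, sumMap]
    | inr s =>
      have e1 : sumMap A g (of (Sum.inr s)) = FreeGroup.map Sum.inr (g (of s)) := by
        simp [sumMap]
      rw [MonoidHom.comp_apply, e1]
      have e2 := DFunLike.congr_fun hinrZ (g (of s))
      rw [MonoidHom.comp_apply] at e2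
      rw [e2, hσ]
      simp
  have h1 : Function.Injective (h.comp (sumMap A g)) := by
    rw [key]; exact good_lm.injective
  exact Function.Injective.of_comp h1

section crit

variable {E : Type} [Group E]

/-- the conjugates `τ ^ j a τ ^ (-j)` -/
def cj (a : A → E) (τ : E) (p : A × ℤ) : E := τ ^ p.2 * a p.1 * (τ ^ p.2)⁻¹

/-- the shift of `A × ℤ` by `k` -/
def shA (A : Type) (k : ℤ) : MulAut (FreeGroup (A × ℤ)) :=
  FreeGroup.freeGroupCongr ((Equiv.refl A).prodCongr (Equiv.addRight k))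

lemma shA_of (k : ℤ) (p : A × ℤ) : shA A k (of p) = of (p.1, p.2 + k) := by
  show FreeGroup.map _ (of p) = _
  rw [FreeGroup.map.of]
  rfl

lemma mulAut_ext {T : Type} {f g : MulAut (FreeGroup T)} (h : ∀ t, f (of t) = g (of t)) :
    f = g := by
  have : f.toMonoidHom = g.toMonoidHom := by
    ext1 t; exact h t
  ext x
  exact DFunLike.congr_fun this x

/-- the action of `ℤ` by shifts -/
def shZ (A : Type) : Multiplicative ℤ →* MulAut (FreeGroup (A × ℤ)) where
  toFun k := shA A k.toAdd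
  map_one' := by
    apply mulAut_ext
    intro t
    rw [shA_of]
    simp
  map_mul' a b := by
    apply mulAut_ext
    intro t
    rw [MulAut.mul_apply, shA_of, shA_of, shA_of]
    simp only [toAdd_mul]
    congr 2
    ring

lemma shZ_of (k : ℤ) (p : A × ℤ) : shZ A (Multiplicative.ofAdd k) (of p) = of (p.1, p.2 + k) :=
  shA_of k p

/-- evaluation of the semidirect product -/
def ev (a : A → E) (τ : E) : FreeGroup (A × ℤ) ⋊[shZ A] Multiplicative ℤ →* E :=
  SemidirectProduct.lift (lift (cj a τ)) (zpowersHom E τ) (by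
    intro k
    ext1 p
    simp only [MonoidHom.comp_apply, MulEquiv.coe_toMonoidHom, lift_apply_of]
    have e := shZ_of k.toAdd p
    rw [ofAdd_toAdd] at e
    rw [e, lift_apply_of, MulAut.conj_apply, zpowersHom_apply]
    unfold cj
    rw [zpow_add]
    have : τ ^ p.2 * τ ^ k.toAdd = τ ^ k.toAdd * τ ^ p.2 := by rw [← zpow_add, ← zpow_add, add_comm]
    simp only
    rw [this]
    group)

/-- the free group as a semidirect product -/
def dec (A : Type) : FreeGroup (A ⊕ Unit) →* FreeGroup (A × ℤ) ⋊[shZ A] Multiplicative ℤ :=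
  lift (Sum.elim (fun a => SemidirectProduct.inl (of (a, 0)))
    (fun _ => SemidirectProduct.inr (Multiplicative.ofAdd 1)))

lemma ev_dec (a : A → E) (τ : E) :
    (ev a τ).comp (dec A) = lift (Sum.elim a (fun _ : Unit => τ)) := by
  ext1 x
  cases x with
  | inl x => simp [ev, dec, cj]
  | inr x => simp [ev, dec]

lemma dec_injective : Function.Injective (dec A) := by
  have h := ev_dec (fun x : A => (of (Sum.inl x) : FreeGroup (A ⊕ Unit))) (of (Sum.inr ()))
  have h2 : (lift (Sum.elim (fun x : A => (of (Sum.inl x) : FreeGroup (A ⊕ Unit)))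
      (fun _ : Unit => of (Sum.inr ())))) = MonoidHom.id _ := by
    ext1 x
    cases x with
    | inl x => simp
    | inr x => simp
  rw [h2] at h
  have h3 : Function.Injective ((ev (fun x : A => (of (Sum.inl x) : FreeGroup (A ⊕ Unit)))
      (of (Sum.inr ()))).comp (dec A)) := by
    rw [h]; exact fun _ _ h => h
  intro x y hxy
  apply h3
  rw [MonoidHom.comp_apply, MonoidHom.comp_apply, hxy]

/-- the index map -/
def ix (A : Type) (n : ℕ) : A × Fin (2 * n + 1) → A × ℤ := fun p => (p.1, (n : ℤ) - p.2.val)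

lemma ix_mono {n n' : ℕ} (h : n ≤ n') :
    (FreeGroup.map (ix A n)).range ≤ (FreeGroup.map (ix A n')).range := by
  rintro _ ⟨v, rfl⟩
  refine ⟨FreeGroup.map (fun p : A × Fin (2 * n + 1) =>
    ((p.1, ⟨p.2.val + (n' - n), by omega⟩) : A × Fin (2 * n' + 1))) v, ?_⟩
  rw [← MonoidHom.comp_apply]
  congr 1
  ext1 p
  simp only [MonoidHom.comp_apply, FreeGroup.map.of, ix]
  congr 2
  push_cast [Nat.cast_sub h]
  ring

lemma ix_range (v : FreeGroup (A × ℤ)) : ∃ n, v ∈ (FreeGroup.map (ix A n)).range := by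
  induction v using FreeGroup.induction_on with
  | C1 => exact ⟨0, one_mem _⟩
  | of p =>
    refine ⟨p.2.natAbs, of (p.1, ⟨((p.2.natAbs : ℤ) - p.2).toNat, by omega⟩), ?_⟩
    rw [FreeGroup.map.of]
    have e : (p.2.natAbs : ℤ) - ((((p.2.natAbs : ℤ) - p.2).toNat : ℕ) : ℤ) = p.2 := by omega
    simp only [ix]
    rw [e]
  | inv_of p ih =>
    obtain ⟨n, hn⟩ := ih
    exact ⟨n, inv_mem hn⟩
  | mul x y hx hy =>
    obtain ⟨n, hn⟩ := hx
    obtain ⟨m, hm⟩ := hy
    exact ⟨max n m, mul_mem (ix_mono (le_max_left _ _) hn) (ix_mono (le_max_right _ _) hm)⟩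

lemma cj_injective (a : A → E) (τ : E)
    (H : ∀ m : ℕ, Function.Injective (lift (fun p : A × Fin m =>
      (τ ^ p.2.val)⁻¹ * a p.1 * τ ^ p.2.val))) : Function.Injective (lift (cj a τ)) := by
  rw [injective_iff_map_eq_one]
  intro v hv
  obtain ⟨n, v', rfl⟩ := ix_range v
  have key : ∀ v' : FreeGroup (A × Fin (2 * n + 1)), lift (cj a τ) (FreeGroup.map (ix A n) v') =
      τ ^ n * lift (fun p : A × Fin (2 * n + 1) => (τ ^ p.2.val)⁻¹ * a p.1 * τ ^ p.2.val) v' *
        (τ ^ n)⁻¹ := by
    intro v'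
    have : (lift (cj a τ)).comp (FreeGroup.map (ix A n)) =
      (MulAut.conj (τ ^ n)).toMonoidHom.comp
        (lift (fun p : A × Fin (2 * n + 1) => (τ ^ p.2.val)⁻¹ * a p.1 * τ ^ p.2.val)) := by
      ext1 p
      simp only [MonoidHom.comp_apply, FreeGroup.map.of, lift_apply_of, MulEquiv.coe_toMonoidHom,
        MulAut.conj_apply, ix, cj]
      rw [zpow_sub, zpow_natCast, zpow_natCast]
      group
    exact DFunLike.congr_fun this v'
  rw [key] at hv
  have h1 : lift (fun p : A × Fin (2 * n + 1) => (τ ^ p.2.val)⁻¹ * a p.1 * τ ^ p.2.val) v' = 1 := by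
    have := congrArg (fun x => (τ ^ n)⁻¹ * x * τ ^ n) hv
    simpa [mul_assoc] using this
  rw [← _root_.map_one (lift (fun p : A × Fin (2 * n + 1) =>
    (τ ^ p.2.val)⁻¹ * a p.1 * τ ^ p.2.val))] at h1
  rw [H _ h1, _root_.map_one]

theorem free_crit (a : A → E) (τ : E) (χ : E →* Multiplicative ℤ) (ha : ∀ x, χ (a x) = 1)
    (hτ : χ τ = Multiplicative.ofAdd 1)
    (H : ∀ m : ℕ, Function.Injective (lift (fun p : A × Fin m =>
      (τ ^ p.2.val)⁻¹ * a p.1 * τ ^ p.2.val))) :
    Function.Injective (lift (Sum.elim a (fun _ : Unit => τ))) := by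
  rw [← ev_dec]
  apply Function.Injective.comp (g := ev a τ) _ dec_injective
  rw [injective_iff_map_eq_one]
  rintro ⟨v, k⟩ hvk
  have h1 : ev a τ ⟨v, k⟩ = lift (cj a τ) v * τ ^ k.toAdd := rfl
  rw [h1] at hvk
  have h2 : χ (lift (cj a τ) v) = 1 := by
    have : χ.comp (lift (cj a τ)) = 1 := by
      ext1 p
      simp [cj, ha]
    exact DFunLike.congr_fun this v
  have h3 : χ (lift (cj a τ) v * τ ^ k.toAdd) = 1 := by rw [hvk, _root_.map_one]
  rw [_root_.map_mul, h2, one_mul, _root_.map_zpow, hτ] at h3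
  have h4 : k.toAdd = 0 := by
    have := congrArg Multiplicative.toAdd h3
    rw [toAdd_zpow, toAdd_ofAdd, smul_eq_mul, mul_one] at this
    exact this
  rw [h4, zpow_zero, mul_one, ← _root_.map_one (lift (cj a τ))] at hvk
  have h5 := cj_injective a τ H hvk
  apply SemidirectProduct.ext
  · exact h5
  · exact h4

end crit

end Pool.Agent.H346.FA
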