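import Pool.Graph.R_seed8.H17R2.Tree

set_option autoImplicit false

/-!
# A criterion for freeness of positive words
-/

namespace Pool.Agent.H346.FA

open FreeGroup Pool.Agent.H17R2

variable {I T : Type} [DecidableEq T]

/-- image of a letter -/
def img (u : I → FreeGroup T) (x : I × Bool) : FreeGroup T := cond x.2 (u x.1) (u x.1)⁻¹

lemma lcp_self' (g : FreeGroup T) : (lcp g.toWord g.toWord : ℤ) = norm g := by
  have h := norm_inv_mul g g
  rw [inv_mul_cancel, FreeGroup.norm_one] at h
  push_cast at h
  linarith

lemma nielsen_aux (u : I → FreeGroup T) (c : ℕ) (hlen : ∀ i, 2 * c < norm (u i))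
    (hc : ∀ x y : I × Bool, ¬ (x.1 = y.1 ∧ x.2 ≠ y.2) →
      lcp ((img u x)⁻¹).toWord (img u y).toWord ≤ c) (L : List (I × Bool)) :
    ∀ x, IsReduced (x :: L) →
      norm (img u x) ≤ lcp (lift u (mk (x :: L))).toWord (img u x).toWord + c ∧
      0 < norm (lift u (mk (x :: L))) := by
  have himg : ∀ x, norm (img u x) = norm (u x.1) := by
    intro x
    rcases x with ⟨i, b⟩
    cases b
    · exact norm_inv_eq
    · rfl
  induction L with
  | nil =>
    intro x _
    have e : lift u (mk [x]) = img u x := by
      rw [lift_mk]; simp [img]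
    rw [e]
    have h1 := lcp_self' (img u x)
    have h2 := hlen x.1
    rw [himg] at h1 ⊢
    omega
  | cons y L ih =>
    intro x hx
    have hred : IsReduced (y :: L) := (List.isChain_cons_cons.1 hx).2
    have hxy : ¬ (x.1 = y.1 ∧ x.2 ≠ y.2) := by
      rintro ⟨h1, h2⟩
      exact h2 ((List.isChain_cons_cons.1 hx).1 h1)
    obtain ⟨i1, i2⟩ := ih y hred
    have e : lift u (mk (x :: y :: L)) = img u x * lift u (mk (y :: L)) := by
      rw [lift_mk, lift_mk, List.map_cons, List.prod_cons]; rfl
    rw [e]
    set g := lift u (mk (y :: L)) with hg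
    have hl := hlen x.1
    have hly := hlen y.1
    rw [← himg] at hl hly
    have h1 := hc x y hxy
    have h2 := lcp_ultra ((img u x)⁻¹).toWord g.toWord (img u y).toWord
    have h3 := norm_inv_mul (img u x)⁻¹ g
    rw [inv_inv, norm_inv_eq] at h3
    have h4 := norm_inv_mul (img u x * g) (img u x)
    have e2 : (img u x * g)⁻¹ * img u x = g⁻¹ := by group
    rw [e2, norm_inv_eq] at h4
    have h5 : lcp ((img u x)⁻¹).toWord g.toWord ≤ c := by
      by_contra hcon
      push Not at hcon
      have : c < min (lcp ((img u x)⁻¹).toWord g.toWord) (lcp g.toWord (img u y).toWord) :=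
        lt_min hcon (by omega)
      omega
    constructor
    · omega
    · omega

lemma nielsen (u : I → FreeGroup T) (c : ℕ) (hlen : ∀ i, 2 * c < norm (u i))
    (hc : ∀ x y : I × Bool, ¬ (x.1 = y.1 ∧ x.2 ≠ y.2) →
      lcp ((img u x)⁻¹).toWord (img u y).toWord ≤ c) : Function.Injective (lift u) := by
  classical
  rw [injective_iff_map_eq_one]
  intro g hg
  by_contra hne
  have h1 : IsReduced g.toWord := isReduced_toWord
  have h2 : mk g.toWord = g := mk_toWord
  cases hw : g.toWord with
  | nil =>
    apply hne
    rw [← h2, hw]; rfl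
  | cons x L =>
    rw [hw] at h1 h2
    have := (nielsen_aux u c hlen hc L x h1).2
    rw [h2, hg, FreeGroup.norm_one] at this
    exact lt_irrefl _ this

lemma lcp_map {β γ : Type} [DecidableEq β] [DecidableEq γ] (f : β → γ)
    (hf : Function.Injective f) (l m : List β) : lcp (l.map f) (m.map f) = lcp l m := by
  induction l generalizing m with
  | nil => cases m <;> simp [lcp]
  | cons x l ih =>
    cases m with
    | nil => simp [lcp]
    | cons y m =>
      simp only [List.map_cons, lcp, ih, hf.eq_iff]

lemma lcp_disj {β : Type} [DecidableEq β] (l m : List β) (h : ∀ x ∈ l, ∀ y ∈ m, x ≠ y) :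
    lcp l m = 0 := by
  cases l with
  | nil => cases m <;> simp [lcp]
  | cons x l =>
    cases m with
    | nil => simp [lcp]
    | cons y m =>
      simp only [lcp]
      rw [if_neg (h x List.mem_cons_self y List.mem_cons_self)]

/-- a positive word -/
def pos (l : List T) : FreeGroup T := mk (l.map fun b => (b, true))

omit [DecidableEq T] in
lemma pos_red (l : List T) (s : Bool) : IsReduced (l.map fun b => (b, s)) := by
  unfold FreeGroup.IsReduced
  rw [List.isChain_iff_getElem]
  intro i hi h
  simp

lemma pos_toWord (l : List T) : (pos l).toWord = l.map fun b => (b, true) := by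
  unfold pos
  rw [toWord_mk, (pos_red l true).reduce_eq]

lemma pos_norm (l : List T) : norm (pos l) = l.length := by
  rw [FreeGroup.norm, pos_toWord, List.length_map]

lemma pos_inv_toWord (l : List T) : ((pos l)⁻¹).toWord = l.reverse.map fun b => (b, false) := by
  rw [toWord_inv, pos_toWord, invRev, List.map_map, ← List.map_reverse]
  rfl

/-- positive words with short common prefixes and suffixes are free -/
theorem pos_free (w : I → List T) (c : ℕ) (hlen : ∀ i, 2 * c < (w i).length)
    (hp : ∀ i j, i ≠ j → lcp (w i) (w j) ≤ c)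
    (hs : ∀ i j, i ≠ j → lcp (w i).reverse (w j).reverse ≤ c) :
    Function.Injective (lift fun i => pos (w i)) := by
  apply nielsen _ c
  · intro i; rw [pos_norm]; exact hlen i
  · rintro ⟨i, s⟩ ⟨j, t⟩ hxy
    simp only [ne_eq] at hxy
    cases s <;> cases t
    · -- negative, negative
      have e : (img (fun i => pos (w i)) (i, false))⁻¹ = pos (w i) := inv_inv _
      have e2 : img (fun i => pos (w i)) (j, false) = (pos (w j))⁻¹ := rfl
      rw [e, e2, pos_toWord, pos_inv_toWord, lcp_disj]
      · exact Nat.zero_le _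
      · intro x hx y hy hxy
        rw [List.mem_map] at hx hy
        obtain ⟨_, _, rfl⟩ := hx
        obtain ⟨_, _, rfl⟩ := hy
        simp at hxy
    · have e : (img (fun i => pos (w i)) (i, false))⁻¹ = pos (w i) := inv_inv _
      have e2 : img (fun i => pos (w i)) (j, true) = pos (w j) := rfl
      rw [e, e2, pos_toWord, pos_toWord, lcp_map _ (fun a b h => (Prod.ext_iff.1 h).1)]
      exact hp i j (fun h => hxy ⟨h, by simp⟩)
    · have e : (img (fun i => pos (w i)) (i, true))⁻¹ = (pos (w i))⁻¹ := rfl
      have e2 : img (fun i => pos (w i)) (j, false) = (pos (w j))⁻¹ := rfl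
      rw [e, e2, pos_inv_toWord, pos_inv_toWord, lcp_map _ (fun a b h => (Prod.ext_iff.1 h).1)]
      exact hs i j (fun h => hxy ⟨h, by simp⟩)
    · have e : (img (fun i => pos (w i)) (i, true))⁻¹ = (pos (w i))⁻¹ := rfl
      have e2 : img (fun i => pos (w i)) (j, true) = pos (w j) := rfl
      rw [e, e2, pos_toWord, pos_inv_toWord, lcp_disj]
      · exact Nat.zero_le _
      · intro x hx y hy hxy
        rw [List.mem_map] at hx hy
        obtain ⟨_, _, rfl⟩ := hx
        obtain ⟨_, _, rfl⟩ := hy
        simp at hxy

end Pool.Agent.H346.FA
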